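import Pool.Agent.W907.SM.Main
import Pool.Agent.W907.SM.Closure

set_option autoImplicit false

namespace Pool.Agent.W907.SM

open Pool.Agent.W907.SG

theorem lv_of {V : Type} [Fintype V] [LinearOrder V] {G : SimpleGraph V} {i : ℕ} (h : L2Van G i) : LV G i := by
  intro f o
  exact ord V V _ f _ o G G i ⟨SimpleGraph.Iso.refl⟩ h

/-- links of chains in Gorenstein* posets -/
theorem lv_links (hM : ∀ (n : ℕ) (V : Type) [Fintype V] [LinearOrder V] (r : V → V → Prop) (rk : V → Fin n),
      GorStar n r rk → ∀ i, 2 * i ≠ n → L2Van (cmp r) i) (hLKG : B_LKG) :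
    ∀ (k n : ℕ) (V : Type) [Fintype V] [LinearOrder V] (r : V → V → Prop) (rk : V → Fin n), GorStar n r rk →
      ∀ T : Finset V, T.card = k → (cmp r).IsClique (T : Set V) → ∀ i, 2 * i + T.card ≠ n →
        LV ((cmp r).induce (Clo.Lk (cmp r) T)) i := by
  classical
  intro k
  induction k with
  | zero =>
    intro n V _ _ r rk hG T hT _ i hi
    rw [Finset.card_eq_zero] at hT
    subst hT
    have hL : Clo.Lk (cmp r) ∅ = Set.univ := by
      ext a; simp [Clo.mem_Lk]
    rw [hL]
    exact liso _ _ _ _ i ⟨(SimpleGraph.induceUnivIso _).symm⟩ (lv_of (hM n V r rk hG i (by simpa using hi)))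
  | succ k ih =>
    intro n V _ _ r rk hG T hT hc i hi
    obtain ⟨v, hv⟩ : T.Nonempty := by
      rw [← Finset.card_pos]; omega
    have hn : 0 < n := (rk v).pos
    obtain ⟨m, rfl⟩ : ∃ m, n = m + 1 := ⟨n - 1, by omega⟩
    have hcard : (T.erase v).card = k := by rw [Finset.card_erase_of_mem hv]; omega
    have hadjv : ∀ t ∈ T.erase v, t ∈ (cmp r).neighborSet v := by
      intro t ht
      rw [Finset.mem_erase] at ht
      exact hc hv ht.2 (Ne.symm ht.1)
    have hrk : ∀ u : ↥((cmp r).neighborSet v), (if r u.1 v then (rk u.1 : ℕ) else (rk u.1 : ℕ) - 1) < m := by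
      intro u
      split_ifs with h
      · have h1 : (rk u.1 : ℕ) < (rk v : ℕ) := hG.rk_lt _ _ h
        have h2 := (rk v).2
        omega
      · have h1 : (cmp r).Adj v u.1 := u.2
        rw [adj_cmp] at h1
        have h2 : r v u.1 := by tauto
        have h3 : (rk v : ℕ) < (rk u.1 : ℕ) := hG.rk_lt _ _ h2
        have h4 := (rk u.1).2
        omega
    have hG' := hLKG (m + 1) V r rk hG v m (fun u => ⟨if r u.1 v then (rk u.1 : ℕ) else (rk u.1 : ℕ) - 1, hrk u⟩) rfl
      (fun u hu => by simp [hu])
      (fun u hu => by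
        have h1 : ¬ r u.1 v := by
          intro h
          have h2 := hG.rk_lt _ _ h
          have h3 := hG.rk_lt _ _ hu
          exact lt_asymm h2 h3
        have h3 : (rk v : ℕ) < (rk u.1 : ℕ) := hG.rk_lt _ _ hu
        simp only [h1, if_false]
        omega)
    have hcard2 : ((T.erase v).subtype (fun x => x ∈ (cmp r).neighborSet v)).card = k := by
      rw [Finset.card_subtype, Finset.filter_true_of_mem hadjv, hcard]
    have h := ih m ↥((cmp r).neighborSet v) _ _ hG' ((T.erase v).subtype (fun x => x ∈ (cmp r).neighborSet v))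
      hcard2 ?_ i (by rw [hcard2]; omega)
    · refine Clo.sp_iso liso Subtype.val i ?_ ?_ ?_ ?_ h
      · intro a ha t ht
        by_cases htv : t = v
        · subst htv
          exact a.2
        · have h1 : t ∈ T.erase v := Finset.mem_erase.2 ⟨htv, ht⟩
          have h2 := ha ⟨t, hadjv t h1⟩ (by rw [Finset.mem_subtype]; exact h1)
          rw [cmp_induce] at h2
          exact h2
      · intro a _ b _ hab
        exact Subtype.ext hab
      · intro b hb
        refine ⟨⟨b, hb v hv⟩, ?_, rfl⟩
        intro t ht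
        rw [cmp_induce]
        rw [Finset.mem_subtype, Finset.mem_erase] at ht
        exact hb t.1 ht.2
      · intro a _ b _
        rw [cmp_induce]
        rfl
    · intro a ha b hb hab
      rw [cmp_induce]
      rw [Finset.mem_coe, Finset.mem_subtype, Finset.mem_erase] at ha hb
      exact hc ha.2 hb.2 (fun e => hab (Subtype.ext e))

/-- order complexes of Gorenstein* posets -/
def GorBase (n : ℕ) {V : Type} (G : SimpleGraph V) : Prop :=
  ∃ (_ : Fintype V) (_ : LinearOrder V) (r : V → V → Prop) (rk : V → Fin n), GorStar n r rk ∧ G = cmp r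

theorem gorBase_mot (hM : ∀ (n : ℕ) (V : Type) [Fintype V] [LinearOrder V] (r : V → V → Prop) (rk : V → Fin n),
      GorStar n r rk → ∀ i, 2 * i ≠ n → L2Van (cmp r) i) (hLKG : B_LKG) (n : ℕ) (V : Type) (G : SimpleGraph V)
    (h : GorBase n G) : Clo.Mot n G := by
  obtain ⟨_, _, r, rk, hG, rfl⟩ := h
  exact ⟨inferInstance, fun T hT i hi => lv_links hM hLKG T.card n V r rk hG T rfl hT i hi⟩

end Pool.Agent.W907.SM
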