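import Pool.Agent.W907.SM.Stmts2
import Pool.Agent.W907.SM.Ext

set_option autoImplicit false

/-!
# Open intervals and vertex links of Gorenstein* posets
-/

namespace Pool.Agent.W349.SMB

open Pool.Agent.W907.SG Pool.Agent.W907.SM Pool.Agent.W215.SM


theorem link_gen {n : ℕ} {V : Type} [Fintype V] [LinearOrder V] {r : V → V → Prop}
    {rk : V → Fin n} (hG : GorStar n r rk) (E : Finset V) (hE : (Pool.Agent.W907.SM.cmp r).IsClique (E : Set V))
    (F : Finset V) (hF : (Pool.Agent.W907.SM.cmp r).IsClique (F : Set V)) (hFN : (F : Set V) ⊆ lk (Pool.Agent.W907.SM.cmp r) E)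
    (i : ℕ) :
    beta (Pool.Agent.W907.SM.cmp r) (fun _ => (LinearMap.id : ZMod 2 →ₗ[ZMod 2] ZMod 2))
      (lk (Pool.Agent.W907.SM.cmp r) F ∩ lk (Pool.Agent.W907.SM.cmp r) E) ∅ i = if i + F.card + E.card = n then 1 else 0 := by
  classical
  have hcl : (Pool.Agent.W907.SM.cmp r).IsClique ((F ∪ E : Finset V) : Set V) := by
    intro x hx y hy hxy
    rw [Finset.mem_coe, Finset.mem_union] at hx hy
    rcases hx with hx | hx
    · rcases hy with hy | hy
      · exact hF hx hy hxy
      · exact hFN hx y hy
    · rcases hy with hy | hy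
      · exact (hFN hy x hx).symm
      · exact hE hx hy hxy
  have hlk : lk (Pool.Agent.W907.SM.cmp r) (F ∪ E) = lk (Pool.Agent.W907.SM.cmp r) F ∩ lk (Pool.Agent.W907.SM.cmp r) E := by
    ext v
    constructor
    · intro h
      exact ⟨fun u hu => h u (Finset.mem_union_left _ hu),
        fun u hu => h u (Finset.mem_union_right _ hu)⟩
    · rintro ⟨h1, h2⟩ u hu
      rw [Finset.mem_union] at hu
      rcases hu with hu | hu
      · exact h1 u hu
      · exact h2 u hu
  have hdis : Disjoint F E := by
    rw [Finset.disjoint_left]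
    intro x hx hx'
    exact (Pool.Agent.W907.SM.cmp r).loopless.irrefl x (hFN hx x hx')
  have h := hG.sphere _ hcl i
  rw [hlk, Finset.card_union_of_disjoint hdis, ← add_assoc] at h
  exact h

theorem sub_gen {n : ℕ} {V : Type} [Fintype V] [LinearOrder V] {r : V → V → Prop}
    {rk : V → Fin n} (hG : GorStar n r rk) (E : Finset V) (hE : (Pool.Agent.W907.SM.cmp r).IsClique (E : Set V))
    (N : Set V) (hN : lk (Pool.Agent.W907.SM.cmp r) E = N) [Fintype ↥N] (m : ℕ) (hm : m + E.card = n)
    (rk' : ↥N → Fin m) (hlt : ∀ a b : ↥N, r a.1 b.1 → rk' a < rk' b) :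
    GorStar m (fun a b : ↥N => r a.1 b.1) rk' := by
  refine ⟨fun x y z h1 h2 => hG.trans _ _ _ h1 h2, hlt, fun F hF i => ?_⟩
  classical
  set r' : ↥N → ↥N → Prop := fun a b => r a.1 b.1 with hr'
  have hadj : ∀ a b : ↥N, (Pool.Agent.W907.SM.cmp r').Adj a b ↔ (Pool.Agent.W907.SM.cmp r).Adj a.1 b.1 := by
    intro a b
    rw [cmp_adj, cmp_adj, hr', ne_eq, ne_eq, Subtype.ext_iff]
  set FV : Finset V := F.image Subtype.val with hFV
  have hcl : (Pool.Agent.W907.SM.cmp r).IsClique (FV : Set V) := by
    intro a ha b hb hab
    rw [Finset.mem_coe, hFV, Finset.mem_image] at ha hb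
    obtain ⟨a', ha', rfl⟩ := ha
    obtain ⟨b', hb', rfl⟩ := hb
    rw [← hadj]
    exact hF ha' hb' (fun e => hab (by rw [e]))
  have hFVN : (FV : Set V) ⊆ lk (Pool.Agent.W907.SM.cmp r) E := by
    intro a ha
    rw [Finset.mem_coe, hFV, Finset.mem_image] at ha
    obtain ⟨a', ha', rfl⟩ := ha
    rw [hN]
    exact a'.2
  have hcard : FV.card = F.card := Finset.card_image_of_injective _ Subtype.val_injective
  have h1 := link_gen hG E hE FV hcl hFVN i
  rw [hcard, hN] at h1
  have h2 : (if i + F.card + E.card = n then 1 else 0) = (if i + F.card = m then 1 else 0) := by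
    by_cases hc : i + F.card = m
    · rw [if_pos hc, if_pos (by omega)]
    · rw [if_neg hc, if_neg (by omega)]
  rw [← h2, ← h1]
  -- transport
  let U := {x : ↥N // x ∈ lk (Pool.Agent.W907.SM.cmp r') F}
  let _ : Fintype U := Fintype.ofFinite U
  let φ₁ : U → ↥N := fun x => x.1
  let φ₂ : U → V := fun x => x.1.1
  let H : SimpleGraph U := (Pool.Agent.W907.SM.cmp r').comap φ₁
  have t1 := Pool.Agent.W52.SG.tr U ↥N (ZMod 2) (ZMod 2) (Pool.Agent.W907.SM.cmp r') H
    (fun _ => LinearMap.id) φ₁ (fun a b h => h) (fun u u' => Iff.rfl) i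
  have t2 := Pool.Agent.W52.SG.tr U V (ZMod 2) (ZMod 2) (Pool.Agent.W907.SM.cmp r) H
    (fun _ => LinearMap.id) φ₂ (fun a b h => h) (fun u u' => hadj _ _) i
  have r1 : Set.range φ₁ = lk (Pool.Agent.W907.SM.cmp r') F := Subtype.range_coe
  have r2 : Set.range φ₂ = lk (Pool.Agent.W907.SM.cmp r) FV ∩ N := by
    ext v
    constructor
    · rintro ⟨x, rfl⟩
      refine ⟨fun u hu => ?_, x.1.2⟩
      rw [hFV, Finset.mem_image] at hu
      obtain ⟨u', hu', rfl⟩ := hu
      exact (hadj _ _).1 (x.2 u' hu')
    · rintro ⟨hv1, hv2⟩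
      refine ⟨⟨⟨v, hv2⟩, fun u hu => (hadj _ _).2 (hv1 u.1 ?_)⟩, rfl⟩
      rw [hFV]
      exact Finset.mem_image_of_mem _ hu
  rw [r1] at t1
  rw [r2] at t2
  exact t1.trans t2.symm

theorem lkg : B_LKG := by
  intro n V _ _ r rk hG v _ m rk' hm h1 h2
  classical
  refine sub_gen hG {v} (by simp) _ ?_ m (by simpa using hm) rk' ?_
  · ext u
    constructor
    · intro h
      exact (h v (Finset.mem_singleton_self v)).symm
    · intro h w hw
      rw [Finset.mem_singleton] at hw
      subst hw
      exact SimpleGraph.Adj.symm h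
  · intro a b hab
    have ha := ((cmp_adj r v a.1).1 a.2).2
    have hb := ((cmp_adj r v b.1).1 b.2).2
    have hlt := hG.rk_lt _ _ hab
    rw [Fin.lt_def] at hlt ⊢
    rcases ha with ha | ha <;> rcases hb with hb | hb
    · have e1 := h2 a ha
      have e2 := h2 b hb
      omega
    · have l1 := hG.rk_lt _ _ ha
      have l2 := hG.rk_lt _ _ hb
      rw [Fin.lt_def] at l1 l2
      omega
    · have l1 := hG.rk_lt _ _ ha
      have l2 := hG.rk_lt _ _ hb
      rw [Fin.lt_def] at l1 l2
      have e1 := h1 a ha
      have e2 := h2 b hb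
      omega
    · have e1 := h1 a ha
      have e2 := h1 b hb
      omega

theorem lo_le_of {n : ℕ} {V : Type} [Fintype V] [LinearOrder V] {r : V → V → Prop}
    {rk : V → Fin n} (hG : GorStar n r rk) {x y : Option V} {v : V} (hv : v ∈ Iv r x y) :
    lo rk x ≤ (rk v : ℕ) ∧ (rk v : ℕ) < hi rk y := by
  constructor
  · cases x with
    | none => exact Nat.zero_le _
    | some a =>
      have := hG.rk_lt _ _ (hv.1 a rfl)
      rw [Fin.lt_def] at this
      show (rk a : ℕ) + 1 ≤ _
      omega
  · cases y with
    | none => exact (rk v).isLt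
    | some b =>
      have := hG.rk_lt _ _ (hv.2 b rfl)
      rw [Fin.lt_def] at this
      exact this

theorem intg : B_INTG := by
  intro n V _ _ r rk hG x y _ m rk' hxy hm hrk
  classical
  -- the chain of the end points
  set P : Finset V := x.toFinset ∪ y.toFinset with hP
  have hPcl : (Pool.Agent.W907.SM.cmp r).IsClique (P : Set V) := by
    intro a ha b hb hab
    rw [Finset.mem_coe, hP, Finset.mem_union, Option.mem_toFinset, Option.mem_toFinset] at ha hb
    rw [cmp_adj]
    refine ⟨hab, ?_⟩
    rcases ha with ha | ha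
    · rcases hb with hb | hb
      · exact absurd (Option.mem_unique ha hb) hab
      · exact Or.inl (hxy a ha b hb)
    · rcases hb with hb | hb
      · exact Or.inr (hxy b hb a ha)
      · exact absurd (Option.mem_unique ha hb) hab
  obtain ⟨F', h1, h2, h3⟩ := ext n V r rk hG P hPcl
  have himg : F'.image rk = Finset.univ := by
    apply Finset.eq_univ_of_card
    rw [Finset.card_image_of_injOn (injOn_rk hG.rk_lt h2), h3, Fintype.card_fin]
  have hxF : ∀ a ∈ x, a ∈ F' := fun a ha =>
    h1 (Finset.mem_union_left _ (Option.mem_toFinset.2 ha))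
  have hyF : ∀ b ∈ y, b ∈ F' := fun b hb =>
    h1 (Finset.mem_union_right _ (Option.mem_toFinset.2 hb))
  have hhi : hi rk y ≤ n := by
    cases y with
    | none => exact le_rfl
    | some b => exact (rk b).isLt.le
  set E : Finset V := F'.filter (fun u => ¬ (lo rk x ≤ (rk u : ℕ) ∧ (rk u : ℕ) < hi rk y)) with hE
  have hEF : E ⊆ F' := Finset.filter_subset _ _
  have hEcl : (Pool.Agent.W907.SM.cmp r).IsClique (E : Set V) := h2.subset (by exact_mod_cast hEF)
  have hex : ∀ c : Fin n, ¬ (lo rk x ≤ (c : ℕ) ∧ (c : ℕ) < hi rk y) → ∃ u ∈ E, rk u = c := by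
    intro c hc
    have hc' : c ∈ F'.image rk := by rw [himg]; exact Finset.mem_univ c
    obtain ⟨u, hu, rfl⟩ := Finset.mem_image.1 hc'
    exact ⟨u, Finset.mem_filter.2 ⟨hu, hc⟩, rfl⟩
  have hcard : m + E.card = n := by
    have e1 := Finset.card_filter_add_card_filter_not (s := F')
      (fun u => lo rk x ≤ (rk u : ℕ) ∧ (rk u : ℕ) < hi rk y)
    have e2 : (F'.filter (fun u => lo rk x ≤ (rk u : ℕ) ∧ (rk u : ℕ) < hi rk y)).card = m := by
      have e3 : ((F'.filter (fun u => lo rk x ≤ (rk u : ℕ) ∧ (rk u : ℕ) < hi rk y)).image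
          (fun u => (rk u : ℕ))) = Finset.Ico (lo rk x) (hi rk y) := by
        ext c
        rw [Finset.mem_image, Finset.mem_Ico]
        constructor
        · rintro ⟨u, hu, rfl⟩
          exact (Finset.mem_filter.1 hu).2
        · intro hc
          have hc' : (⟨c, by omega⟩ : Fin n) ∈ F'.image rk := by rw [himg]; exact Finset.mem_univ _
          obtain ⟨u, hu, hu2⟩ := Finset.mem_image.1 hc'
          have hu3 : (rk u : ℕ) = c := by rw [hu2]
          exact ⟨u, Finset.mem_filter.2 ⟨hu, by rw [hu3]; exact hc⟩, hu3⟩
      have e4 := congrArg Finset.card e3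
      rw [Finset.card_image_of_injOn, Nat.card_Ico] at e4
      · omega
      · intro u hu v hv huv
        refine injOn_rk hG.rk_lt h2 (Finset.mem_filter.1 hu).1 (Finset.mem_filter.1 hv).1 ?_
        exact Fin.ext huv
    rw [e2, h3] at e1
    exact e1
  refine sub_gen hG E hEcl _ ?_ m hcard rk' ?_
  · ext v
    constructor
    · intro hv
      refine ⟨fun a ha => ?_, fun b hb => ?_⟩
      · have haE : a ∈ E := by
          rw [hE, Finset.mem_filter]
          refine ⟨hxF a ha, fun h => ?_⟩
          have hla : lo rk x = (rk a : ℕ) + 1 := by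
            have : x = some a := ha
            rw [this]
            rfl
          omega
        have hadj := hv a haE
        rw [cmp_adj] at hadj
        rcases hadj.2 with h4 | h4
        · exfalso
          have h5 := hG.rk_lt _ _ h4
          rw [Fin.lt_def] at h5
          have hla : lo rk x = (rk a : ℕ) + 1 := by
            have : x = some a := ha
            rw [this]
            rfl
          obtain ⟨u, hu, hu2⟩ := hex (rk v) (fun h => by omega)
          exact rk_ne hG.rk_lt (hv u hu) hu2.symm
        · exact h4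
      · have hhb : hi rk y = (rk b : ℕ) := by
          have : y = some b := hb
          rw [this]
          rfl
        have hbE : b ∈ E := by
          rw [hE, Finset.mem_filter]
          refine ⟨hyF b hb, fun h => ?_⟩
          omega
        have hadj := hv b hbE
        rw [cmp_adj] at hadj
        rcases hadj.2 with h4 | h4
        · exact h4
        · exfalso
          have h5 := hG.rk_lt _ _ h4
          rw [Fin.lt_def] at h5
          obtain ⟨u, hu, hu2⟩ := hex (rk v) (fun h => by omega)
          exact rk_ne hG.rk_lt (hv u hu) hu2.symm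
    · intro hv u hu
      rw [hE, Finset.mem_filter] at hu
      obtain ⟨huF, hu2⟩ := hu
      rw [cmp_adj]
      have key : r v u ∨ r u v := by
        by_cases hlo : lo rk x ≤ (rk u : ℕ)
        · have hhu : hi rk y ≤ (rk u : ℕ) := by
            by_contra h
            exact hu2 ⟨hlo, by omega⟩
          cases y with
          | none =>
            exfalso
            have := (rk u).isLt
            change n ≤ _ at hhu
            omega
          | some b =>
            change (rk b : ℕ) ≤ (rk u : ℕ) at hhu
            have hvb : r v b := hv.2 b rfl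
            left
            by_cases hub : b = u
            · rw [← hub]; exact hvb
            · have hadj := h2 (hyF b rfl) huF hub
              rw [cmp_adj] at hadj
              rcases hadj.2 with h4 | h4
              · exact hG.trans _ _ _ hvb h4
              · exfalso
                have h5 := hG.rk_lt _ _ h4
                rw [Fin.lt_def] at h5
                omega
        · cases x with
          | none => exact absurd (Nat.zero_le _) hlo
          | some a =>
            change ¬ ((rk a : ℕ) + 1 ≤ (rk u : ℕ)) at hlo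
            have hav : r a v := hv.1 a rfl
            right
            by_cases hua : u = a
            · rw [hua]; exact hav
            · have hadj := h2 huF (hxF a rfl) hua
              rw [cmp_adj] at hadj
              rcases hadj.2 with h4 | h4
              · exact hG.trans _ _ _ h4 hav
              · exfalso
                have h5 := hG.rk_lt _ _ h4
                rw [Fin.lt_def] at h5
                omega
      refine ⟨?_, key⟩
      rintro rfl
      rcases key with h | h
      · exact lt_irrefl _ (hG.rk_lt _ _ h)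
      · exact lt_irrefl _ (hG.rk_lt _ _ h)
  · intro a b hab
    have hlt := hG.rk_lt _ _ hab
    have ha := hrk a
    have hb := hrk b
    rw [Fin.lt_def] at hlt ⊢
    omega

end Pool.Agent.W349.SMB
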