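import Pool.Agent.W907.SM.Intg

set_option autoImplicit false

/-!
# Top cycles on intervals
-/

namespace Pool.Agent.W349.SMB

open Pool.Agent.W907.SG Pool.Agent.W907.SM Pool.Agent.W215.SM


section
variable {U V K : Type} [Field K] [Fintype U] [DecidableEq U] [Fintype V] [DecidableEq V]
  {n m : ℕ} {r : V → V → Prop} {rk : V → Fin n} {r' : U → U → Prop} {rk' : U → Fin m}
  {N : Set V}

omit [Fintype U] [DecidableEq U] [Fintype V] [DecidableEq V] in
theorem ty_iff (φ : U ↪ V) (ψ : Fin m ↪ Fin n) (h1 : ∀ u u', r' u u' ↔ r (φ u) (φ u'))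
    (h2 : ∀ u, rk (φ u) = ψ (rk' u)) (hN : Set.range φ = N) (C : Finset (Fin m))
    (T : Finset U) : ty r' rk' Set.univ C T ↔ ty r rk N (C.map ψ) (T.map φ) := by
  have hadj : ∀ a b : U, (Pool.Agent.W907.SM.cmp r').Adj a b ↔ (Pool.Agent.W907.SM.cmp r).Adj (φ a) (φ b) := by
    intro a b
    rw [cmp_adj, cmp_adj, h1, h1, ne_eq, ne_eq, φ.injective.eq_iff]
  have c1 : (Pool.Agent.W907.SM.cmp r').IsClique (T : Set U) ↔ (Pool.Agent.W907.SM.cmp r).IsClique ((T.map φ : Finset V) : Set V) := by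
    constructor
    · intro h a ha b hb hab
      rw [Finset.mem_coe, Finset.mem_map] at ha hb
      obtain ⟨a', ha', rfl⟩ := ha
      obtain ⟨b', hb', rfl⟩ := hb
      rw [← hadj]
      exact h ha' hb' (fun e => hab (by rw [e]))
    · intro h a ha b hb hab
      rw [hadj]
      exact h (Finset.mem_coe.2 (Finset.mem_map_of_mem φ ha))
        (Finset.mem_coe.2 (Finset.mem_map_of_mem φ hb)) (fun e => hab (φ.injective e))
  have c2 : ((T.map φ : Finset V) : Set V) ⊆ N := by
    intro a ha
    rw [Finset.mem_coe, Finset.mem_map] at ha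
    obtain ⟨a', ha', rfl⟩ := ha
    rw [← hN]
    exact ⟨a', rfl⟩
  have c3 : (T.map φ).image rk = (T.image rk').map ψ := by
    ext c
    simp only [Finset.mem_image, Finset.mem_map]
    constructor
    · rintro ⟨v, ⟨u, hu, rfl⟩, rfl⟩
      exact ⟨rk' u, ⟨u, hu, rfl⟩, (h2 u).symm⟩
    · rintro ⟨c', ⟨u, hu, rfl⟩, rfl⟩
      exact ⟨φ u, ⟨u, hu, rfl⟩, h2 u⟩
  unfold ty
  rw [c1, c3, Finset.map_inj]
  constructor
  · rintro ⟨a, _, b⟩
    exact ⟨a, c2, b⟩
  · rintro ⟨a, _, b⟩
    exact ⟨a, Set.subset_univ _, b⟩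

theorem sum_aux (φ : U ↪ V) (hN : Set.range φ = N) (f : V → K) (T : Finset U)
    (hf : ∀ v, v ∉ N → f v = 0) :
    ∑ u ∈ Tᶜ, f (φ u) = ∑ v ∈ (T.map φ)ᶜ, f v := by
  rw [← Finset.sum_map Tᶜ φ f]
  refine Finset.sum_subset ?_ ?_
  · intro v hv
    rw [Finset.mem_map] at hv
    obtain ⟨u, hu, rfl⟩ := hv
    rw [Finset.mem_compl] at hu ⊢
    intro h
    rw [Finset.mem_map'] at h
    exact hu h
  · intro v hv hv2
    apply hf
    intro hvN
    rw [← hN] at hvN
    obtain ⟨u, rfl⟩ := hvN
    apply hv2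
    rw [Finset.mem_map']
    rw [Finset.mem_compl, Finset.mem_map'] at hv
    exact Finset.mem_compl.2 hv

theorem TZ_sub (φ : U ↪ V) (ψ : Fin m ↪ Fin n) (h1 : ∀ u u', r' u u' ↔ r (φ u) (φ u'))
    (h2 : ∀ u, rk (φ u) = ψ (rk' u)) (hN : Set.range φ = N) (D : Finset (Fin m)) (τ : V → K)
    (z : Finset V → K) (hz : TZ r rk τ N (D.map ψ) ∅ z) :
    TZ r' rk' (fun u => τ (φ u)) Set.univ D ∅ (fun T => z (T.map φ)) := by
  obtain ⟨hz1, hz2⟩ := hz
  rw [Finset.union_empty] at hz1 hz2
  refine ⟨fun T hT => ?_, fun c hc T' hT' => ?_⟩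
  · rw [Finset.union_empty] at hT
    apply hz1
    rwa [← ty_iff φ ψ h1 h2 hN]
  · rw [Finset.union_empty] at hc hT'
    have hc' : ψ c ∈ D.map ψ := Finset.mem_map_of_mem ψ hc
    have hT2 : ty r rk N ((D.map ψ).erase (ψ c)) (T'.map φ) := by
      rw [← Finset.map_erase, ← ty_iff φ ψ h1 h2 hN]
      exact hT'
    obtain ⟨e1, e2⟩ := hz2 (ψ c) hc' (T'.map φ) hT2
    have hzero : ∀ v, v ∉ N → z (insert v (T'.map φ)) = 0 := by
      intro v hv
      apply hz1
      rintro ⟨_, h, _⟩
      exact hv (h (Finset.mem_coe.2 (Finset.mem_insert_self _ _)))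
    constructor
    · have := sum_aux φ hN (fun v => z (insert v (T'.map φ))) T' hzero
      simp only [Finset.map_insert]
      rw [this]
      exact e1
    · intro _
      have := sum_aux φ hN (fun v => τ v * z (insert v (T'.map φ))) T'
        (fun v hv => by rw [hzero v hv, mul_zero])
      simp only [Finset.map_insert]
      rw [this]
      exact e2 hc'

theorem Ind2_sub (φ : U ↪ V) (E : Set V) (E' : Set U) (hE : ∀ u, u ∈ E' ↔ φ u ∈ E) (τ : V → K)
    (h : Ind2 E τ) : Ind2 E' (fun u => τ (φ u)) := by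
  intro x hx hsum
  have hinj : Function.Injective (fun T : Finset U => T.map φ) := Finset.map_injective φ
  have h1 := h (Function.extend (fun T : Finset U => T.map φ) x 0) ?_ ?_
  · funext T
    have := congrFun h1 (T.map φ)
    rw [hinj.extend_apply x 0 T] at this
    exact this
  · intro T hT
    by_cases hex : ∃ T' : Finset U, (fun T : Finset U => T.map φ) T' = T
    · obtain ⟨T', rfl⟩ := hex
      rw [hinj.extend_apply x 0 T']
      apply hx
      intro hsub
      apply hT
      intro v hv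
      rw [Finset.mem_coe] at hv
      obtain ⟨u, hu, rfl⟩ := Finset.mem_map.1 hv
      exact (hE u).1 (hsub hu)
    · rw [Function.extend_apply' _ _ _ hex]
      rfl
  · rw [← hsum]
    symm
    refine Fintype.sum_of_injective (fun T : Finset U => T.map φ) hinj _ _ ?_ ?_
    · intro T hT
      rw [Function.extend_apply' _ _ _ (fun ⟨T', h⟩ => hT ⟨T', h⟩)]
      simp
    · intro T
      rw [hinj.extend_apply x 0 T, Finset.prod_map]

end

theorem keyi : B_KEYI := by
  intro hyp n V K _ _ _ _ r rk τ hG hI x y hxy hlo hhi z hz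
  set N : Set V := Iv r x y with hN
  let fN : Fintype ↥N := Fintype.ofFinite _
  have hhin : hi rk y ≤ n := by
    cases y with
    | none => exact le_rfl
    | some b => exact (rk b).isLt.le
  have hle : lo rk x ≤ hi rk y := by
    cases x with
    | none => exact Nat.zero_le _
    | some a =>
      cases y with
      | none => exact (rk a).isLt
      | some b =>
        have := hG.rk_lt _ _ (hxy a rfl b rfl)
        rw [Fin.lt_def] at this
        exact this
  obtain ⟨m, hm⟩ : ∃ m, m + lo rk x = hi rk y := ⟨hi rk y - lo rk x, by omega⟩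
  have hmodd : Odd m := by
    have : Odd (m + lo rk x) := by rw [hm]; exact hhi
    rw [Nat.odd_add] at this
    exact this.2 hlo
  obtain ⟨j, hj⟩ := hmodd
  let rk' : ↥N → Fin m := fun v => ⟨(rk v.1 : ℕ) - lo rk x, by
    have := lo_le_of hG v.2
    omega⟩
  have hrk' : ∀ v : ↥N, (rk' v : ℕ) + lo rk x = (rk v.1 : ℕ) := by
    intro v
    have := lo_le_of hG v.2
    show (rk v.1 : ℕ) - lo rk x + lo rk x = _
    omega
  have hG' : GorStar m (fun a b : ↥N => r a.1 b.1) rk' := intg n V r rk hG x y m rk' hxy hm hrk'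
  let φ : ↥N ↪ V := ⟨Subtype.val, Subtype.val_injective⟩
  let ψ : Fin m ↪ Fin n := ⟨fun c => ⟨(c : ℕ) + lo rk x, by
    have := c.isLt
    omega⟩, fun a b hab => by
      have := congrArg Fin.val hab
      dsimp only at this
      exact Fin.ext (by omega)⟩
  have h2 : ∀ u : ↥N, rk (φ u) = ψ (rk' u) := fun u => Fin.ext (hrk' u).symm
  have hrange : Set.range φ = N := Subtype.range_coe
  have hD : (DblF m (j + 1)).map ψ = EvF n (lo rk x) (hi rk y) := by
    ext c
    rw [Finset.mem_map, EvF, Finset.mem_filter]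
    constructor
    · rintro ⟨c', hc', rfl⟩
      rw [DblF, Finset.mem_filter] at hc'
      have hlt := c'.isLt
      refine ⟨Finset.mem_univ _, ?_, ?_, ?_⟩
      · show Even ((c' : ℕ) + lo rk x)
        exact hc'.2.1.add hlo
      · show lo rk x ≤ (c' : ℕ) + lo rk x
        omega
      · show (c' : ℕ) + lo rk x < hi rk y
        omega
    · rintro ⟨_, hc1, hc2, hc3⟩
      refine ⟨⟨(c : ℕ) - lo rk x, by omega⟩, ?_, ?_⟩
      · rw [DblF, Finset.mem_filter]
        refine ⟨Finset.mem_univ _, ?_, ?_⟩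
        · show Even ((c : ℕ) - lo rk x)
          exact (Nat.even_sub hc2).2 (iff_of_true hc1 hlo)
        · show (c : ℕ) - lo rk x < 2 * (j + 1)
          omega
      · apply Fin.ext
        show (c : ℕ) - lo rk x + lo rk x = (c : ℕ)
        omega
  have hI' : Ind2 {v : ↥N | Even (rk' v : ℕ)} (fun u => τ (φ u)) := by
    refine Ind2_sub φ {v | Even (rk v : ℕ)} _ (fun u => ?_) τ hI
    show Even (rk' u : ℕ) ↔ Even (rk u.1 : ℕ)
    rw [← hrk' u, Nat.even_add]
    simp [hlo]
  rw [← hD] at hz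
  have key := hyp m ↥N K (fun a b : ↥N => r a.1 b.1) rk' (fun u => τ (φ u)) j hG' hj
    hI' (fun T => z (T.map φ))
    (by
      have h5 := TZ_sub (r' := fun a b : ↥N => r a.1 b.1) (rk' := rk') φ ψ (fun _ _ => Iff.rfl) h2
        hrange (DblF m (j + 1)) τ z hz
      exact h5)
  classical
  funext T
  by_cases hT : ty r rk N ((DblF m (j + 1)).map ψ) T
  · have hTe : (T.subtype (fun v => v ∈ N)).map φ = T := by
      rw [show φ = Function.Embedding.subtype (fun v => v ∈ N) from rfl, Finset.subtype_map,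
        Finset.filter_true_of_mem]
      intro v hv
      exact hT.2.1 hv
    have h5 : z ((T.subtype (fun v => v ∈ N)).map φ) = 0 :=
      congrFun key (T.subtype (fun v => v ∈ N))
    rw [hTe] at h5
    exact h5
  · exact hz.1 T (by rw [Finset.union_empty]; exact hT)

end Pool.Agent.W349.SMB
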