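import Pool.Agent.W907.SG.All
import Pool.Agent.W907.SM.MainB
import Pool.Agent.W907.SM.GorBase
import Pool.Agent.W215.SM.LADD
import Pool.Agent.W907.SM.V0
import Pool.Agent.W346.SM.VSTEP
import Pool.Agent.W578.SM.KEY
import Pool.Agent.W85.SM.CStep
import Pool.Agent.W907.SM.Ext
import Pool.Agent.W391.SM.Thin
import Pool.Agent.W240.SM.ALG
import Pool.Agent.W977.SM.T1
import Pool.Agent.W398.SM.T3
import Pool.Agent.W705.SM.T4
import Pool.Agent.W378.SM.T6
import Pool.Agent.W111.SM.Odd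
import Pool.Agent.W907.SM.Intg
import Pool.Agent.W907.SM.Keyi
import Pool.Agent.W479.SM.JT
import Pool.Agent.W816.SM.Abv
import Pool.Agent.W657.SM.DESC
import Pool.Agent.W597.SM.EVN
import Pool.Agent.W327.SM.EULF
import Pool.Agent.W723.SM.L2EUL

set_option autoImplicit false

namespace Pool.Agent.W907.SM

open Pool.Agent.W907.SG

theorem surj : M_SURJ := Pool.Agent.W215.SM.LAdd.surj
theorem ladd : M_LADD := Pool.Agent.W215.SM.LAdd.ladd
theorem ldel : M_LDEL := Pool.Agent.W215.SM.LAdd.ldel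
theorem joinT : M_JOIN := Pool.Agent.W215.SM.LAdd.join
theorem v0 : M_V0 := Pool.Agent.W215.SM.VZero.v0
theorem vstep : M_VSTEP := Pool.Agent.W346.SM.vstep surj ladd joinT
theorem key : M_KEY := Pool.Agent.W578.SM.key
theorem ext : M_EXT := Pool.Agent.W215.SM.ext
theorem intT : M_INT := Pool.Agent.W215.SM.int
theorem subg : M_SUBG := Pool.Agent.W215.SM.subg
theorem thin : M_THIN := Pool.Agent.W391.SM.Thin.main ext intT
theorem t2 : M_T2 := Pool.Agent.W240.SM.t2
theorem ind2 : M_IND2 := Pool.Agent.W240.SM.ind2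
theorem ltr : M_LTR := Pool.Agent.W240.SM.ltr
theorem t1 : M_T1 := Pool.Agent.W977.SM.T1.main
theorem t3 : M_T3 := Pool.Agent.W398.SM.T3.main
theorem t4 : M_T4 := Pool.Agent.W705.SM.t4 sub linep
theorem t6 : M_T6 := Pool.Agent.W378.SM.t6
theorem odd : M_ODD := Pool.Agent.W111.SM.odd_of l2add Pool.Agent.W907.SG.ord
theorem lkg : B_LKG := Pool.Agent.W349.SMB.lkg
theorem intg : B_INTG := Pool.Agent.W349.SMB.intg
theorem keyi : B_KEYI := Pool.Agent.W349.SMB.keyi
theorem jt : B_JT := Pool.Agent.W479.SM.jt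
theorem desc : B_DESC := Pool.Agent.W657.SM.b_desc
theorem genind : B_GENIND := Pool.Agent.W657.SM.b_genind
theorem evn : B_EVN := Pool.Agent.W597.SM.evn lkg
theorem eulf : M_EULF := Pool.Agent.W327.SM.eulf ext intT
theorem l2eul : C_L2EUL := Pool.Agent.W723.SM.l2eul

end Pool.Agent.W907.SM
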