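import Pool.Agent.W907.SM.Main

set_option autoImplicit false

namespace Pool.Agent.W907.SM

open Pool.Agent.W907.SG

section
variable {n : ℕ} {V K : Type} [Fintype V] [LinearOrder V] [Field K] [CharP K 2]

omit [Fintype V] in
theorem sg_smul (v : V) (T : Finset V) (x : K) : sg v T • x = x := by
  rcases sg_eq_or v T with h | h
  · rw [h, one_smul]
  · rw [h, neg_smul, one_smul]
    exact CharTwo.neg_eq x

theorem bdd_eval (y : Finset V → (Fin n → Bool) → K) (T : Finset V) (ε : Fin n → Bool) :
    bdd y T ε = ∑ v ∈ Tᶜ, y (insert v T) ε := by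
  unfold bdd
  rw [Finset.sum_apply]
  refine Finset.sum_congr rfl fun v _ => ?_
  rw [Pi.smul_apply, sg_smul]

omit [Fintype V] [LinearOrder V] in
theorem ty_insert {r : V → V → Prop} {rk : V → Fin n} [DecidableEq V] (hr : ∀ x y, r x y → rk x < rk y) {N : Set V}
    {C : Finset (Fin n)} {T : Finset V} {v : V} (hv : v ∉ T) (h : ty r rk N C (insert v T)) :
    rk v ∈ C ∧ ty r rk N (C.erase (rk v)) T := by
  obtain ⟨h1, h2, h3⟩ := h
  have hne : rk v ∉ T.image rk := by
    intro hm
    rw [Finset.mem_image] at hm
    obtain ⟨t, ht, hte⟩ := hm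
    have hvt : v ≠ t := fun e => hv (e ▸ ht)
    exact rk_ne hr v t (h1 (by simp) (by simp [ht]) hvt) hte.symm
  rw [Finset.image_insert] at h3
  refine ⟨h3 ▸ Finset.mem_insert_self _ _, h1.subset (by simp), fun x hx => h2 (by simp at hx ⊢; exact Or.inr hx), ?_⟩
  rw [← h3, Finset.erase_insert hne]

omit [Fintype V] [LinearOrder V] in
theorem ty_card {r : V → V → Prop} {rk : V → Fin n} (hr : ∀ x y, r x y → rk x < rk y) {N : Set V}
    {C : Finset (Fin n)} {T : Finset V} (h : ty r rk N C T) : T.card = C.card := by
  rw [← h.2.2, Finset.card_image_of_injOn]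
  intro a ha b hb hab
  by_contra hne
  exact rk_ne hr a b (h.1 ha hb hne) hab

omit [Fintype V] [LinearOrder V] in
theorem ty_of_card {r : V → V → Prop} {rk : V → Fin n} (hr : ∀ x y, r x y → rk x < rk y) {N : Set V}
    {C : Finset (Fin n)} {T : Finset V} (h1 : (cmp r).IsClique (T : Set V))
    (h2 : (T : Set V) ⊆ N ∩ {v | rk v ∈ C}) (h3 : C.card ≤ T.card) : ty r rk N C T := by
  refine ⟨h1, fun v hv => (h2 hv).1, ?_⟩
  apply Finset.eq_of_subset_of_card_le
  · intro c hc
    rw [Finset.mem_image] at hc
    obtain ⟨v, hv, rfl⟩ := hc
    exact (h2 hv).2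
  · rw [Finset.card_image_of_injOn]
    · exact h3
    · intro a ha b hb hab
      by_contra hne
      exact rk_ne hr a b (h1 ha hb hne) hab

/-- the weight of the chosen bits -/
noncomputable def wt (rk : V → Fin n) (τ : V → K) (D : Finset (Fin n)) (T : Finset V) (ε : Fin n → Bool) : K :=
  ∏ t ∈ T, if rk t ∈ D ∧ ε (rk t) = true then τ t else 1

open Classical in
/-- the line chain of a scalar function -/
noncomputable def toLC (rk : V → Fin n) (τ : V → K) (D : Finset (Fin n)) (z : Finset V → K) :
    Finset V → (Fin n → Bool) → K :=
  fun T ε => if ∀ b, b ∉ D → ε b = false then wt rk τ D T ε * z T else 0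

omit [Fintype V] [CharP K 2] in
theorem toLC_line {r : V → V → Prop} {rk : V → Fin n} (hr : ∀ x y, r x y → rk x < rk y) (τ : V → K)
    (D : Finset (Fin n)) (z : Finset V → K) (T : Finset V) (hT : z T ≠ 0 → (cmp r).IsClique (T : Set V)) (t : V)
    (ht : t ∈ T) (hD : rk t ∈ D) (ε : Fin n → Bool) :
    toLC rk τ D z T (Function.update ε (rk t) true) = τ t * toLC rk τ D z T (Function.update ε (rk t) false) := by
  by_cases hz : z T = 0
  · simp [toLC, hz]
  · have hc := hT hz
    have hb : ∀ x : Bool, (∀ b, b ∉ D → Function.update ε (rk t) x b = false) ↔ ∀ b, b ∉ D → ε b = false := by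
      intro x
      refine forall_congr' fun b => ?_
      refine imp_congr_right fun hb => ?_
      rw [Function.update_of_ne (fun e => hb (by rw [e]; exact hD))]
    have hw : wt rk τ D T (Function.update ε (rk t) true) = τ t * wt rk τ D T (Function.update ε (rk t) false) := by
      unfold wt
      rw [← Finset.mul_prod_erase T _ ht, ← Finset.mul_prod_erase T _ ht]
      simp only [Function.update_self, hD, true_and, if_true, Bool.false_eq_true, if_false, one_mul]
      congr 1
      refine Finset.prod_congr rfl fun u hu => ?_
      have hne : rk u ≠ rk t := rk_ne hr u t (hc (Finset.mem_of_mem_erase hu) ht (Finset.ne_of_mem_erase hu))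
      rw [Function.update_of_ne hne, Function.update_of_ne hne]
    unfold toLC
    by_cases h : ∀ b, b ∉ D → ε b = false
    · rw [if_pos ((hb true).2 h), if_pos ((hb false).2 h), hw, mul_assoc]
    · rw [if_neg (fun h' => h ((hb true).1 h')), if_neg (fun h' => h ((hb false).1 h')), mul_zero]

theorem toLC_cycle {r : V → V → Prop} {rk : V → Fin n} (hr : ∀ x y, r x y → rk x < rk y) (τ : V → K) (N : Set V)
    (D S : Finset (Fin n)) (z : Finset V → K) (hz : TZ r rk τ N D S z) : bdd (toLC rk τ D z) = 0 := by
  funext T ε
  rw [bdd_eval, Pi.zero_apply, Pi.zero_apply]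
  by_cases hex : ∃ v ∈ Tᶜ, z (insert v T) ≠ 0
  · obtain ⟨v, hv, hvz⟩ := hex
    have hvT : v ∉ T := by simpa using hv
    have hty : ty r rk N (D ∪ S) (insert v T) := by
      by_contra h
      exact hvz (hz.1 _ h)
    obtain ⟨hc, hT⟩ := ty_insert hr hvT hty
    have hrk : ∀ u ∈ Tᶜ, z (insert u T) ≠ 0 → rk u = rk v := by
      intro u hu huz
      have huT : u ∉ T := by simpa using hu
      have hty' : ty r rk N (D ∪ S) (insert u T) := by
        by_contra h
        exact huz (hz.1 _ h)
      obtain ⟨hc', hT'⟩ := ty_insert hr huT hty'
      have h5 : (D ∪ S).erase (rk u) = (D ∪ S).erase (rk v) := by rw [← hT.2.2, ← hT'.2.2]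
      by_contra hne
      have h6 : rk u ∈ (D ∪ S).erase (rk v) := Finset.mem_erase.2 ⟨hne, hc'⟩
      rw [← h5] at h6
      exact Finset.notMem_erase _ _ h6
    have hz2 := hz.2 (rk v) hc T hT
    by_cases hb : ∀ b, b ∉ D → ε b = false
    · have h7 : ∀ u ∈ Tᶜ, toLC rk τ D z (insert u T) ε =
          (if rk v ∈ D ∧ ε (rk v) = true then wt rk τ D T ε * (τ u * z (insert u T)) else
            wt rk τ D T ε * z (insert u T)) := by
        intro u hu
        have huT : u ∉ T := by simpa using hu
        by_cases huz : z (insert u T) = 0
        · simp [toLC, huz]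
        · have h8 := hrk u hu huz
          unfold toLC
          rw [if_pos hb]
          unfold wt
          rw [Finset.prod_insert huT, h8]
          split_ifs <;> ring
      rw [Finset.sum_congr rfl h7]
      split_ifs with h9
      · rw [← Finset.mul_sum, hz2.2 h9.1, mul_zero]
      · rw [← Finset.mul_sum, hz2.1, mul_zero]
    · refine Finset.sum_eq_zero fun u _ => ?_
      unfold toLC
      rw [if_neg hb]
  · push Not at hex
    refine Finset.sum_eq_zero fun u hu => ?_
    simp [toLC, hex u hu]

end

theorem conva : M_CONVA := by
  classical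
  intro n V K _ _ _ _ r rk τ N D S s hr hDS hs hEX z hz
  obtain ⟨i, hi⟩ : ∃ i, i + 1 = D.card + S.card := ⟨D.card + S.card - 1, by
    have := Finset.card_pos.2 ⟨s, hs⟩
    omega⟩
  have hsD : s ∉ D := fun h => (Finset.disjoint_left.1 hDS h) hs
  have hcard : (D ∪ S).card = i + 1 := by rw [Finset.card_union_of_disjoint hDS, hi]
  have hcard' : (D ∪ S.erase s).card = i := by
    rw [Finset.card_union_of_disjoint (hDS.mono_right (Finset.erase_subset _ _)), Finset.card_erase_of_mem hs]
    have := Finset.card_pos.2 ⟨s, hs⟩
    omega
  have hLC : IsLC (cmp r) rk (D : Set (Fin n)) τ (N ∩ {v | rk v ∈ D ∪ S}) i (toLC rk τ D z) := by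
    refine ⟨?_, ?_⟩
    · intro T hT
      have hzT : z T = 0 := by
        by_contra hne
        have hty : ty r rk N (D ∪ S.erase s) T := by
          by_contra h
          exact hne (hz.1 _ h)
        refine hT ⟨hty.1, ?_, ?_⟩
        · intro v hv
          refine ⟨hty.2.1 hv, ?_⟩
          have h1 : rk v ∈ T.image rk := Finset.mem_image_of_mem _ hv
          rw [hty.2.2] at h1
          show rk v ∈ D ∪ S
          rcases Finset.mem_union.1 h1 with h | h
          · exact Finset.mem_union_left _ h
          · exact Finset.mem_union_right _ (Finset.mem_of_mem_erase h)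
        · rw [ty_card hr hty, hcard']
      funext ε
      simp [toLC, hzT]
    · intro T t ht hD ε
      refine toLC_line hr τ D z T ?_ t ht (by simpa using hD) ε
      intro hne
      by_contra h
      exact hne (hz.1 _ (fun hty => h hty.1))
  obtain ⟨y, hy, hby⟩ := hEX i hi _ hLC (toLC_cycle hr τ N D _ z hz)
  have hysupp : ∀ T, ¬ ty r rk N (D ∪ S) T → y T = 0 := by
    intro T hT
    refine hy.supp T ?_
    rintro ⟨h1, h2, h3⟩
    exact hT (ty_of_card hr h1 h2 (by omega))
  refine ⟨fun T => y T (fun _ => false), ?_, ?_, ?_⟩
  · intro T hT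
    show y T _ = 0
    rw [hysupp T hT]
    rfl
  · intro T' hT'
    have h1 := congrFun (congrFun hby T') (fun _ => false)
    rw [bdd_eval] at h1
    rw [h1]
    simp [toLC, wt]
  · intro c hc hcs T' hT'
    have hzT' : z T' = 0 := by
      by_contra hne
      have hty : ty r rk N (D ∪ S.erase s) T' := by
        by_contra h
        exact hne (hz.1 _ h)
      have h1 : s ∈ (D ∪ S).erase c := Finset.mem_erase.2 ⟨Ne.symm hcs, Finset.mem_union_right _ hs⟩
      rw [← hT'.2.2, hty.2.2] at h1
      rcases Finset.mem_union.1 h1 with h | h
      · exact hsD h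
      · exact Finset.notMem_erase _ _ h
    have h0 : ∀ ε, ∑ v ∈ T'ᶜ, y (insert v T') ε = 0 := by
      intro ε
      have h1 := congrFun (congrFun hby T') ε
      rw [bdd_eval] at h1
      rw [h1]
      simp [toLC, hzT']
    refine ⟨h0 _, fun hcD => ?_⟩
    rw [← h0 (Function.update (fun _ => false) c true)]
    refine Finset.sum_congr rfl fun v hv => ?_
    have hvT : v ∉ T' := by simpa using hv
    by_cases hty : ty r rk N (D ∪ S) (insert v T')
    · have hrv : rk v = c := by
        obtain ⟨h1, h2⟩ := ty_insert hr hvT hty
        have h5 : (D ∪ S).erase (rk v) = (D ∪ S).erase c := by rw [← h2.2.2, ← hT'.2.2]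
        by_contra hne
        have h6 : rk v ∈ (D ∪ S).erase c := Finset.mem_erase.2 ⟨hne, h1⟩
        rw [← h5] at h6
        exact Finset.notMem_erase _ _ h6
      have h3 := hy.line (insert v T') v (Finset.mem_insert_self _ _) (by rw [hrv]; exact hcD) (fun _ => false)
      rw [hrv] at h3
      rw [h3]
      show τ v * y (insert v T') (fun _ => false) = _
      have h4 : Function.update (fun _ : Fin n => false) c false = fun _ => false := by
        funext x
        by_cases hx : x = c
        · subst hx; simp
        · rw [Function.update_of_ne hx]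
      rw [h4]
    · show τ v * y (insert v T') (fun _ => false) = _
      rw [hysupp _ hty]
      simp

theorem convb : M_CONVB := by
  classical
  intro n V K _ _ _ _ r rk τ N D hr hTZ z hz hb
  have hsupp : ∀ T, ¬ ty r rk N D T → z T = 0 := by
    intro T hT
    refine hz.supp T ?_
    rintro ⟨h1, h2, h3⟩
    exact hT (ty_of_card hr h1 h2 (by omega))
  -- clear the bits in D
  have key : ∀ ε : Fin n → Bool, (∀ b ∈ D, ε b = false) → ∀ T, z T ε = 0 := by
    intro ε hε T
    have h : (fun T => z T ε) = 0 := by
      refine hTZ _ ⟨?_, ?_⟩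
      · intro T hT
        rw [Finset.union_empty] at hT
        show z T ε = 0
        rw [hsupp T hT]
        rfl
      · intro c hc T' hT'
        rw [Finset.union_empty] at hc hT'
        have h0 : ∀ ε', ∑ v ∈ T'ᶜ, z (insert v T') ε' = 0 := by
          intro ε'
          have h1 := congrFun (congrFun hb T') ε'
          rw [bdd_eval] at h1
          exact h1
        refine ⟨h0 ε, fun _ => ?_⟩
        rw [← h0 (Function.update ε c true)]
        refine Finset.sum_congr rfl fun v hv => ?_
        have hvT : v ∉ T' := by simpa using hv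
        by_cases hty : ty r rk N D (insert v T')
        · have hrv : rk v = c := by
            obtain ⟨h1, h2⟩ := ty_insert hr hvT hty
            have h5 : D.erase (rk v) = D.erase c := by rw [← h2.2.2, ← hT'.2.2]
            by_contra hne
            have h6 : rk v ∈ D.erase c := Finset.mem_erase.2 ⟨hne, h1⟩
            rw [← h5] at h6
            exact Finset.notMem_erase _ _ h6
          have h3 := hz.line (insert v T') v (Finset.mem_insert_self _ _) (by rw [hrv]; exact hc) ε
          rw [hrv] at h3
          rw [h3]
          show τ v * z (insert v T') ε = _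
          have h4 : Function.update ε c false = ε := by
            funext x
            by_cases hx : x = c
            · subst hx; simp [hε _ hc]
            · rw [Function.update_of_ne hx]
          rw [h4]
        · show τ v * z (insert v T') ε = _
          rw [hsupp _ hty]
          simp
    exact congrFun h T
  funext T ε
  by_cases hT : ty r rk N D T
  · -- induction on the number of true bits in D
    have hind : ∀ (k : ℕ) (ε : Fin n → Bool), (D.filter (fun b => ε b = true)).card = k → z T ε = 0 := by
      intro k
      induction k with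
      | zero =>
        intro ε hk
        rw [Finset.card_eq_zero, Finset.filter_eq_empty_iff] at hk
        exact key ε (fun b hb => by simpa using hk hb) T
      | succ k ih =>
        intro ε hk
        obtain ⟨c, hc⟩ : (D.filter (fun b => ε b = true)).Nonempty := by
          rw [← Finset.card_pos]; omega
        rw [Finset.mem_filter] at hc
        have hcT : c ∈ T.image rk := by rw [hT.2.2]; exact hc.1
        rw [Finset.mem_image] at hcT
        obtain ⟨t, ht, rfl⟩ := hcT
        have h1 := hz.line T t ht hc.1 ε
        have h2 : Function.update ε (rk t) true = ε := by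
          funext x
          by_cases hx : x = rk t
          · subst hx; simp [hc.2]
          · rw [Function.update_of_ne hx]
        rw [h2] at h1
        rw [h1, ih (Function.update ε (rk t) false) ?_, mul_zero]
        have h3 : D.filter (fun b => Function.update ε (rk t) false b = true) =
            (D.filter (fun b => ε b = true)).erase (rk t) := by
          ext b
          simp only [Finset.mem_filter, Finset.mem_erase]
          by_cases hb : b = rk t
          · subst hb; simp
          · rw [Function.update_of_ne hb]; tauto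
        rw [h3, Finset.card_erase_of_mem (Finset.mem_filter.2 hc), hk]
        rfl
    exact hind _ ε rfl
  · rw [hsupp T hT]
    rfl

end Pool.Agent.W907.SM
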