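import Pool.Agent.W907.SG.Stmts2

/-!
# Gorenstein* posets and generic line complexes
-/

namespace Pool.Agent.W907.SM

open Pool.Agent.W907.SG

/-! ### posets -/

/-- the comparability graph of a relation -/
def cmp {V : Type} (r : V → V → Prop) : SimpleGraph V := SimpleGraph.fromRel r

/-- the vertices adjacent to all the vertices of `F`: the link of the clique `F` -/
def lk {V : Type} (G : SimpleGraph V) (F : Finset V) : Set V := {v | ∀ u ∈ F, G.Adj v u}

/-- the relation `r` is a strict partial order, graded by `rk : V → Fin n`, whose order complex is a Gorenstein*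
complex of dimension `n-1` over `F_2`: the link of every chain `F` has the reduced mod 2 homology of a sphere
of dimension `n - 1 - |F|` (`beta … i` is the `(i-1)`-st reduced Betti number). -/
structure GorStar (n : ℕ) {V : Type} [Fintype V] [LinearOrder V] (r : V → V → Prop) (rk : V → Fin n) : Prop where
  trans : ∀ x y z, r x y → r y z → r x z
  rk_lt : ∀ x y, r x y → rk x < rk y
  sphere : ∀ F : Finset V, (cmp r).IsClique (F : Set V) → ∀ i : ℕ,
    beta (cmp r) (fun _ => (LinearMap.id : ZMod 2 →ₗ[ZMod 2] ZMod 2)) (lk (cmp r) F) ∅ i =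
      if i + F.card = n then 1 else 0

/-- the open lower intervals: `N` is the whole poset (length `n`) or `{v | v < y}` (length the rank of `y`) -/
def IsN {n : ℕ} {V : Type} (r : V → V → Prop) (rk : V → Fin n) (m : ℕ) (N : Set V) : Prop :=
  (N = Set.univ ∧ m = n) ∨ ∃ y, N = {v | r v y} ∧ m = (rk y : ℕ)

/-! ### line complexes over a commutative ring -/

/-- the boundary operator, without scalars -/
def bdd {V M : Type} [Fintype V] [LinearOrder V] [AddCommGroup M] (c : Finset V → M) : Finset V → M :=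
  fun T => ∑ v ∈ Tᶜ, sg v T • c (insert v T)

/-- Line chains: `c T` lies in `⊗_colours R²`, written as functions of `ε : C → Bool`, and for `t ∈ T` of a colour
in `D` the component at the colour of `t` lies on the line spanned by `(1, τ t)`. -/
structure IsLC {V C R : Type} [DecidableEq C] [CommRing R] (G : SimpleGraph V) (col : V → C) (D : Set C) (τ : V → R)
    (A : Set V) (i : ℕ) (c : Finset V → (C → Bool) → R) : Prop where
  supp : ∀ T : Finset V, ¬ (G.IsClique (T : Set V) ∧ (T : Set V) ⊆ A ∧ T.card = i) → c T = 0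
  line : ∀ (T : Finset V), ∀ t ∈ T, col t ∈ D → ∀ ε : C → Bool,
    c T (Function.update ε (col t) true) = τ t * c T (Function.update ε (col t) false)

/-- exactness of the line complex in degree `i` -/
def EX {V C R : Type} [Fintype V] [LinearOrder V] [DecidableEq C] [CommRing R] (G : SimpleGraph V) (col : V → C)
    (D : Set C) (τ : V → R) (A : Set V) (i : ℕ) : Prop :=
  ∀ z : Finset V → (C → Bool) → R, IsLC G col D τ A i z → bdd z = 0 →
    ∃ y : Finset V → (C → Bool) → R, IsLC G col D τ A (i + 1) y ∧ bdd y = z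

/-- the even colours `0, 2, …, 2j-2` -/
def DblF (n j : ℕ) : Finset (Fin n) := Finset.univ.filter (fun c => Even c.val ∧ c.val < 2 * j)

/-- the vanishing statement `V_j`: for every chain `F` of elements of ranks `≥ 2j` and every set `S` of ranks
`≥ 2j` not occurring in `F`, the complex of the link of `F` with double ranks `0, 2, …, 2j-2` and simple ranks `S`
is exact in the degrees `< j + |S|` -/
def VV {K : Type} [Field K] (n : ℕ) {V : Type} [Fintype V] [LinearOrder V] (r : V → V → Prop) (rk : V → Fin n)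
    (τ : V → K) (j : ℕ) : Prop :=
  ∀ (F : Finset V) (S : Finset (Fin n)), (cmp r).IsClique (F : Set V) → (∀ u ∈ F, 2 * j ≤ (rk u : ℕ)) →
    (∀ s ∈ S, 2 * j ≤ (s : ℕ)) → (∀ u ∈ F, rk u ∉ S) →
    ∀ i, i < j + S.card →
      EX (cmp r) rk (DblF n j : Set (Fin n)) τ (lk (cmp r) F ∩ {v | rk v ∈ DblF n j ∪ S}) i

/-- the acyclicity statement `c_{j+1}`: lower intervals of length `2j+1` with double ranks `0, 2, …, 2j` -/
def CC {K : Type} [Field K] (n : ℕ) {V : Type} [Fintype V] [LinearOrder V] (r : V → V → Prop) (rk : V → Fin n)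
    (τ : V → K) (j : ℕ) : Prop :=
  ∀ N : Set V, IsN r rk (2 * j + 1) N → ∀ i,
    EX (cmp r) rk (DblF n (j + 1) : Set (Fin n)) τ (N ∩ {v | rk v ∈ DblF n (j + 1)}) i

/-! ### top cycles as scalar functions (characteristic 2) -/

/-- chains `T ⊆ N` whose set of ranks is `C` -/
def ty {n : ℕ} {V : Type} (r : V → V → Prop) (rk : V → Fin n) (N : Set V) (C : Finset (Fin n)) (T : Finset V) :
    Prop := (cmp r).IsClique (T : Set V) ∧ (T : Set V) ⊆ N ∧ T.image rk = C

/-- top cycles for double ranks `D` and simple ranks `S` -/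
def TZ {K : Type} [Field K] {n : ℕ} {V : Type} [Fintype V] [DecidableEq V] (r : V → V → Prop) (rk : V → Fin n)
    (τ : V → K) (N : Set V) (D S : Finset (Fin n)) (x : Finset V → K) : Prop :=
  (∀ T, ¬ ty r rk N (D ∪ S) T → x T = 0) ∧
  ∀ c ∈ D ∪ S, ∀ T', ty r rk N ((D ∪ S).erase c) T' →
    (∑ v ∈ T'ᶜ, x (insert v T') = 0) ∧ (c ∈ D → ∑ v ∈ T'ᶜ, τ v * x (insert v T') = 0)

/-- every top cycle for `D`, `S \ {s}` is the boundary of a function on the chains of type `D ∪ S` all of whose
other boundary components vanish -/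
def PRIM {K : Type} [Field K] {n : ℕ} {V : Type} [Fintype V] [DecidableEq V] (r : V → V → Prop) (rk : V → Fin n)
    (τ : V → K) (N : Set V) (D S : Finset (Fin n)) (s : Fin n) : Prop :=
  ∀ z, TZ r rk τ N D (S.erase s) z → ∃ b : Finset V → K, (∀ T, ¬ ty r rk N (D ∪ S) T → b T = 0) ∧
    (∀ T', ty r rk N ((D ∪ S).erase s) T' → ∑ v ∈ T'ᶜ, b (insert v T') = z T') ∧
    ∀ c ∈ D ∪ S, c ≠ s → ∀ T', ty r rk N ((D ∪ S).erase c) T' →
      (∑ v ∈ T'ᶜ, b (insert v T') = 0) ∧ (c ∈ D → ∑ v ∈ T'ᶜ, τ v * b (insert v T') = 0)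

/-- the products `∏_{v ∈ T} τ v`, `T ⊆ E`, are linearly independent over the squares -/
def Ind2 {K : Type} [Field K] {V : Type} [Fintype V] [DecidableEq V] (E : Set V) (τ : V → K) : Prop :=
  ∀ x : Finset V → K, (∀ T : Finset V, ¬ (T : Set V) ⊆ E → x T = 0) → ∑ T : Finset V, (∏ v ∈ T, τ v) * x T ^ 2 = 0 →
    x = 0

/-! ### lines for the group representations -/

/-- the truncated polynomial ring `F_p[X]/(X^N)` -/
abbrev ON (p N : ℕ) : Type := Polynomial (ZMod p) ⧸ Ideal.span {(Polynomial.X : Polynomial (ZMod p)) ^ N}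

/-- the slope of the `-1`-line (`χ = true`) or of the `+1`-line (`χ = false`) of the generator `v` -/
noncomputable def slope {p : ℕ} {V : Type} (α β : V → Polynomial (ZMod p)) (χ : V → Bool) (v : V) :
    Polynomial (ZMod p) :=
  if χ v then Polynomial.X * α v else 1 + Polynomial.X * β v

/-- `a` lies on the line of slope `t` in the colour `c` -/
def OnLine {C R : Type} [DecidableEq C] [CommRing R] (c : C) (t : R) (a : (C → Bool) → R) : Prop :=
  ∀ ε : C → Bool, a (Function.update ε c true) = t * a (Function.update ε c false)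

end Pool.Agent.W907.SM
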