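import Pool.Agent.W907.SG.All

set_option autoImplicit false

/-!
# `ℓ²`-vanishing as a property of graphs
-/

namespace Pool.Agent.W907.SM

open Pool.Agent.W907.SG

/-- `L2Van` for all instances -/
def LV {V : Type} (G : SimpleGraph V) (i : ℕ) : Prop := ∀ (_ : Fintype V) (_ : LinearOrder V), L2Van G i

def L_STEP1 : Prop := ∀ (V : Type) [Finite V] (G : SimpleGraph V) (v : V) (i : ℕ),
    LV (G.induce {v}ᶜ) i → (∀ j, i = j + 1 → LV (G.induce (G.neighborSet v)) j) → LV G i

def L_STEP2 : Prop := ∀ (V : Type) [Finite V] (G : SimpleGraph V) (s t : V) (i : ℕ), G.Adj s t →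
    LV G i → (∀ j, i = j + 1 → LV (G.induce (G.neighborSet s ∩ G.neighborSet t)) j) →
    LV (G.deleteEdges {s(s, t)}) i

def L_SUSP : Prop := ∀ (V : Type) [Finite V] (G : SimpleGraph V) (s t : V) (i : ℕ), s ≠ t → ¬ G.Adj s t →
    (∀ u, u ≠ s → u ≠ t → G.Adj u s ∧ G.Adj u t) → LV G i

def L_ISO : Prop := ∀ (V U : Type) (G : SimpleGraph V) (H : SimpleGraph U) (i : ℕ), Nonempty (G ≃g H) →
    LV G i → LV H i

def L_EMPTY : Prop := ∀ (V : Type) [IsEmpty V] (G : SimpleGraph V) (i : ℕ), 1 ≤ i → LV G i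

theorem lstep1 : L_STEP1 := by
  classical
  intro V _ G v i h1 h2 _ _
  exact l2add V G v i (h1 _ _) (fun j hj => h2 j hj _ _)

theorem lstep2 : L_STEP2 := by
  classical
  intro V _ G s t i hst h1 h2 _ _
  exact l2del V G s t i hst (h1 _ _) (fun j hj => h2 j hj _ _)

theorem lsusp : L_SUSP := by
  intro V _ G s t i h1 h2 h3 _ _
  exact fin V G i (suspT V G s t i h1 h2 h3)

theorem liso : L_ISO := by
  intro V U G H i e h hU oU
  obtain ⟨e⟩ := e
  exact ord V U (Fintype.ofEquiv U e.toEquiv.symm) hU (LinearOrder.lift' e e.injective) oU G H i ⟨e⟩ (h _ _)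

theorem lempty : L_EMPTY := by
  intro V _ G i hi _ _
  exact fin V G i (empty V G i hi)

end Pool.Agent.W907.SM
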