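import Pool.Agent.W907.SM.Stmts2

namespace Pool.Agent.W907.SM

open Pool.Agent.W907.SG

/-- L2EUL: `ℓ²`-vanishing and the Euler characteristic -/
def C_L2EUL : Prop := ∀ (V : Type) [Fintype V] [LinearOrder V] (G : SimpleGraph V) (m : ℕ),
    (∀ i, i ≠ m → L2Van G i) → ((∀ i, L2Van G i) ↔ chiW G = 0)

end Pool.Agent.W907.SM
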